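import Pool.Agent.W559.GF.Fin

/-!
MP_6a3dac_ag: regular proper flat models over the ring of integers of the number field `E` of the
hypersurfaces over `E` which, after a linear change of coordinates and up to a constant factor, are
given by `a₀ X₀^m + ... + a_{n+1} X_{n+1}^m = 0`, of squarefree degree `m ≥ 3`, with each `a_i`
squarefree and prime to `m`, if the primes of `E` above each `p ∣ m` are unramified or have
ramification index `r` dividing `p - 1` and each `a_i` is congruent to an integer times a `p`-th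
power modulo `𝔭 ^ (2 r)` (for example every Fermat hypersurface of squarefree degree over `ℚ`, in
every dimension).

Team: helper559 (assembly), helpers 930, 398, 191, 177, 376, 333, 883 (atlases, base change,
flatness, relations); built on the local theory of diagonal hypersurfaces of helper945 and the
helpers named in the file DiagonalRamified for MP_4d1008_ag.
-/

set_option autoImplicit false

open AlgebraicGeometry CategoryTheory CategoryTheory.Limits NumberField

namespace Pool.Agent.Results.MP_6a3dac_ag.DiagonalHypersurfaces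

attribute [local instance] MvPolynomial.gradedAlgebra

/-- `X` with the morphism `f` to `Spec E` is the reduced hypersurface `Φ = 0` in the projective
space over `E` with homogeneous coordinates indexed by `Fin (N + 1)`. -/
def IsHypersurface {E : Type} [Field E] {N : ℕ} (Φ : MvPolynomial (Fin (N + 1)) E)
    {X : Scheme.{0}} (f : X ⟶ Spec (CommRingCat.of E)) : Prop :=
  IsReduced X ∧ ∃ j : X ⟶ Proj (MvPolynomial.homogeneousSubmodule (Fin (N + 1)) E),
    IsClosedImmersion j ∧
    j ≫ Proj.toSpecZero (MvPolynomial.homogeneousSubmodule (Fin (N + 1)) E) ≫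
      Spec.map (CommRingCat.ofHom
        (algebraMap E (MvPolynomial.homogeneousSubmodule (Fin (N + 1)) E 0))) = f ∧
    Set.range j =
      {y : ProjectiveSpectrum (MvPolynomial.homogeneousSubmodule (Fin (N + 1)) E) |
        Φ ∈ y.asHomogeneousIdeal}

theorem result :
    ∀ (E : Type) [Field E] [NumberField E] (m : ℕ), 3 ≤ m → Squarefree m →
      ∀ (n : ℕ), 1 ≤ n → ∀ (a : Fin (n + 2) → 𝓞 E),
      (∀ i, Squarefree (Ideal.span {a i})) →
      (∀ i, IsCoprime (m : 𝓞 E) (a i)) →
      (∀ 𝔭 : Ideal (𝓞 E), 𝔭.IsPrime → ∀ p : ℕ, p.Prime → p ∣ m → (p : 𝓞 E) ∈ 𝔭 →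
        (p : 𝓞 E) ∉ 𝔭 ^ 2 ∨
          ∃ r : ℕ, 2 ≤ r ∧ r ∣ p - 1 ∧ (p : 𝓞 E) ∈ 𝔭 ^ r ∧ (p : 𝓞 E) ∉ 𝔭 ^ (r + 1) ∧
            ∀ i, ∃ (z : ℤ) (y : 𝓞 E), a i - z * y ^ p ∈ 𝔭 ^ (2 * r)) →
      ∀ Φ : MvPolynomial (Fin (n + 2)) E, Φ.IsHomogeneous m →
      (∃ (l : E) (T T' : Matrix (Fin (n + 2)) (Fin (n + 2)) E), l ≠ 0 ∧ T * T' = 1 ∧
        MvPolynomial.C l * MvPolynomial.aeval (fun i => ∑ j,
            MvPolynomial.C (T i j) * MvPolynomial.X j :
          Fin (n + 2) → MvPolynomial (Fin (n + 2)) E) Φ =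
        ∑ i, MvPolynomial.C (algebraMap (𝓞 E) E (a i)) * MvPolynomial.X i ^ m) →
      ∀ (X : Scheme.{0}) (f : X ⟶ Spec (CommRingCat.of E)), IsHypersurface Φ f →
      ∃ (Y : Scheme.{0}) (g : Y ⟶ Spec (CommRingCat.of (𝓞 E))),
        IsProper g ∧ Flat g ∧
        (∀ y : Y, ringKrullDim (Y.presheaf.stalk y) =
          (((Module.finrank (IsLocalRing.ResidueField (Y.presheaf.stalk y))
              (IsLocalRing.CotangentSpace (Y.presheaf.stalk y)) : ℕ) : ℕ∞) : WithBot ℕ∞)) ∧
        ∃ e : pullback g (Spec.map (CommRingCat.ofHom (algebraMap (𝓞 E) E))) ≅ X,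
          e.hom ≫ f = pullback.snd g (Spec.map (CommRingCat.ofHom (algebraMap (𝓞 E) E))) := by
  intro E _ _ m hm3 hsq n hn a ha hcop hp Φ hΦ hT X f hX
  obtain ⟨l, T, T', hl, hTT, hd⟩ := hT
  exact Pool.Agent.W559.GF.diagonal m hm3 hsq n hn a ha hcop hp Φ hΦ l hl T T' hTT hd X f hX

end Pool.Agent.Results.MP_6a3dac_ag.DiagonalHypersurfaces
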