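import Pool.Agent.W559.GF.Fin

/-!
MP_6a3dac_ag: for every number field `E`, every smooth quadric hypersurface over `E` in a
projective space of any dimension `N ≥ 2` has a regular proper flat model over the ring of integers
of `E`.

Team: helper559 (assembly), helpers 930, 398, 191, 177, 376, 333, 397, 883 (atlases, base change,
flatness, diagonalization); built on the local theory of quadrics of helpers 918, 968, 825, 992 in
the results for MP_4d1008_ag.
-/

set_option autoImplicit false

open AlgebraicGeometry CategoryTheory CategoryTheory.Limits NumberField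

namespace Pool.Agent.Results.MP_6a3dac_ag.Quadrics

attribute [local instance] MvPolynomial.gradedAlgebra

/-- `X` with the morphism `f` to `Spec E` is the reduced hypersurface `Φ = 0` in the projective
space over `E` with homogeneous coordinates indexed by `Fin (N + 1)`. -/
def IsHypersurface {E : Type} [Field E] {N : ℕ} (Φ : MvPolynomial (Fin (N + 1)) E)
    {X : Scheme.{0}} (f : X ⟶ Spec (CommRingCat.of E)) : Prop :=
  IsReduced X ∧ ∃ j : X ⟶ Proj (MvPolynomial.homogeneousSubmodule (Fin (N + 1)) E),
    IsClosedImmersion j ∧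
    j ≫ Proj.toSpecZero (MvPolynomial.homogeneousSubmodule (Fin (N + 1)) E) ≫
      Spec.map (CommRingCat.ofHom
        (algebraMap E (MvPolynomial.homogeneousSubmodule (Fin (N + 1)) E 0))) = f ∧
    Set.range j =
      {y : ProjectiveSpectrum (MvPolynomial.homogeneousSubmodule (Fin (N + 1)) E) |
        Φ ∈ y.asHomogeneousIdeal}

theorem result :
    ∀ (E : Type) [Field E] [NumberField E] (N : ℕ), 2 ≤ N →
      ∀ Φ : MvPolynomial (Fin (N + 1)) E, Φ.IsHomogeneous 2 →
      (∀ v : Fin (N + 1) → E,
        (∀ i, MvPolynomial.eval v (MvPolynomial.pderiv i Φ) = 0) → v = 0) →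
      ∀ (X : Scheme.{0}) (f : X ⟶ Spec (CommRingCat.of E)), IsHypersurface Φ f →
      ∃ (Y : Scheme.{0}) (g : Y ⟶ Spec (CommRingCat.of (𝓞 E))),
        IsProper g ∧ Flat g ∧
        (∀ y : Y, ringKrullDim (Y.presheaf.stalk y) =
          (((Module.finrank (IsLocalRing.ResidueField (Y.presheaf.stalk y))
              (IsLocalRing.CotangentSpace (Y.presheaf.stalk y)) : ℕ) : ℕ∞) : WithBot ℕ∞)) ∧
        ∃ e : pullback g (Spec.map (CommRingCat.ofHom (algebraMap (𝓞 E) E))) ≅ X,
          e.hom ≫ f = pullback.snd g (Spec.map (CommRingCat.ofHom (algebraMap (𝓞 E) E))) := by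
  intro E _ _ N hN Φ hΦ hns X f hX
  exact Pool.Agent.W559.GF.quadrics N hN Φ hΦ hns X f hX

end Pool.Agent.Results.MP_6a3dac_ag.Quadrics
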