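import Pool.Agent.W418.WR.Main

/-!
MP_6a3dac_ag: for every number field `E` and every quadratic extension `K = E(√d)`, the Weil
restriction of projective `n`-space from `K` to `E` has a regular proper flat model over the ring
of integers of `E`.
-/

set_option autoImplicit false

open AlgebraicGeometry CategoryTheory CategoryTheory.Limits NumberField

namespace Pool.Agent.Results.MP_6a3dac_ag.WeilRestrictions

/-- The span of the coordinates of `z_i * conj z_j` with respect to `1, √d`, where
`z_i = x_i + y_i √d`; here `x_i` is the variable `(i, false)` and `y_i` is the variable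
`(i, true)`. -/
noncomputable def hermitianForms {E : Type} [Field E] (d : E) (n : ℕ) :
    Submodule E (MvPolynomial (Fin (n + 1) × Bool) E) :=
  Submodule.span E {z | ∃ i j,
    z = MvPolynomial.X (i, false) * MvPolynomial.X (j, false) -
      MvPolynomial.C d * (MvPolynomial.X (i, true) * MvPolynomial.X (j, true)) ∨
    z = MvPolynomial.X (i, true) * MvPolynomial.X (j, false) -
      MvPolynomial.X (i, false) * MvPolynomial.X (j, true)}

theorem result :
    ∀ (E : Type) [Field E] [NumberField E] (d : E), d ≠ 0 →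
      ∀ (n : ℕ) (A : Type) [CommRing A] [Algebra E A] (𝒜 : ℕ → Submodule E A)
        [GradedAlgebra 𝒜] (ι : A →ₐ[E] MvPolynomial (Fin (n + 1) × Bool) E),
        Function.Injective ι →
        (∀ k, (𝒜 k).map ι.toLinearMap = hermitianForms d n ^ k) →
      ∀ (X : Scheme.{0}) (f : X ⟶ Spec (CommRingCat.of E)) (i : X ≅ Proj 𝒜),
        i.hom ≫ Proj.toSpecZero 𝒜 ≫ Spec.map (CommRingCat.ofHom (algebraMap E (𝒜 0))) = f →
      ∃ (Y : Scheme.{0}) (g : Y ⟶ Spec (CommRingCat.of (𝓞 E))),
        IsProper g ∧ Flat g ∧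
        (∀ y : Y, ringKrullDim (Y.presheaf.stalk y) =
          (((Module.finrank (IsLocalRing.ResidueField (Y.presheaf.stalk y))
              (IsLocalRing.CotangentSpace (Y.presheaf.stalk y)) : ℕ) : ℕ∞) : WithBot ℕ∞)) ∧
        ∃ e : pullback g (Spec.map (CommRingCat.ofHom (algebraMap (𝓞 E) E))) ≅ X,
          e.hom ≫ f = pullback.snd g (Spec.map (CommRingCat.ofHom (algebraMap (𝓞 E) E))) := by
  intro E _ _ d hd n A _ _ 𝒜 _ ι hι h𝒜 X f i hi
  exact Pool.Agent.W418.WR.main hd 𝒜 ι hι h𝒜 f i hi

end Pool.Agent.Results.MP_6a3dac_ag.WeilRestrictions
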